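import Pool.Agent.W685.FS.Fin

/-!
# The ideal of finitely strictly singular operators from `ℓ_p` to `ℓ_q` is not generated by one
operator

For all `1 < p < q < ∞` (real or complex scalars) no bounded operator `T : ℓ_p → ℓ_q` generates the
closed ideal `FS` of the finitely strictly singular operators.

Method: given a finitely strictly singular `T`, we choose (if `p ≥ 2`) blocks of Rademacher
functions in the domain and blocks of independent symmetric functions of small support
(Rosenthal functions) in the range, with parameters tending to `0` so slowly, compared with `T`,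
that the normalized traces of all `A T B` over the `n`-th block tend to `0`, while the block
diagonal operator between these blocks has all normalized traces equal to `1` and is finitely
strictly singular (Milman's lemma and Rosenthal's inequality). For `p < 2` the roles of domain and
range are exchanged.
-/

set_option autoImplicit false

open scoped ENNReal

namespace Pool.Agent.Results.MP_4336d9_an.NotSinglyGenerated

section
variable {𝕜 X Y : Type*} [NontriviallyNormedField 𝕜] [NormedAddCommGroup X] [NormedSpace 𝕜 X]
  [NormedAddCommGroup Y] [NormedSpace 𝕜 Y]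

/-- The closed ideal generated by `T : X → Y`: the norm closure of the set of the finite sums
of operators `A T B` with `A` a bounded operator on `Y` and `B` a bounded operator on `X`. -/
def closedIdeal (T : X →L[𝕜] Y) : Set (X →L[𝕜] Y) :=
  closure (Submodule.span 𝕜 {S | ∃ (A : Y →L[𝕜] Y) (B : X →L[𝕜] X), S = A ∘L T ∘L B})

/-- `T : X → Y` is finitely strictly singular: for every `ε > 0` there is `n` such that every
linear subspace `E` of `X` with `dim E ≥ n` contains `x ≠ 0` with `‖T x‖ ≤ ε ‖x‖`. -/
def FinitelyStrictlySingular (T : X →L[𝕜] Y) : Prop :=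
  ∀ ε : ℝ, 0 < ε → ∃ n : ℕ, ∀ E : Submodule 𝕜 X,
    (n : Cardinal) ≤ Module.rank 𝕜 E → ∃ x ∈ E, x ≠ 0 ∧ ‖T x‖ ≤ ε * ‖x‖

variable (𝕜 X Y) in
/-- The set of the finitely strictly singular operators from `X` to `Y` is the closed ideal
generated by one operator. -/
def FSGeneratedByOneOperator : Prop :=
  ∃ T : X →L[𝕜] Y, closedIdeal T = {S | FinitelyStrictlySingular S}

end

/-- For all `1 < p < q < ∞` the closed ideal of the finitely strictly singular operators from
`ℓ_p` to `ℓ_q` is not generated by one operator. -/
theorem result {𝕜 : Type*} [RCLike 𝕜] {p q : ℝ≥0∞} [Fact (1 ≤ p)] [Fact (1 ≤ q)]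
    (hp : 1 < p) (hpq : p < q) (hq : q < ∞) :
    ¬ FSGeneratedByOneOperator 𝕜 (lp (fun _ : ℕ => 𝕜) p) (lp (fun _ : ℕ => 𝕜) q) := by
  rintro ⟨T, hT⟩
  exact Pool.Agent.W685.FS.main hp hpq hq T hT

end Pool.Agent.Results.MP_4336d9_an.NotSinglyGenerated
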